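import Pool.Agent.Helper57.QZ.Stmts

/-! Row US of sheet QZ: Chernoff's bound for `Sy`. -/

set_option autoImplicit false

namespace Pool.Agent.Helper57.QZ

open MeasureTheory Set Filter Topology

theorem us_of (h0 : ST_PR0) : ST_US := by
  intro y σ s h hs
  obtain ⟨f, hf⟩ : ∃ f : (Pr y → ℝ) → ℝ, f = fun φ =>
      Real.exp (∑ p : Pr y, s * aa σ p * Real.cos (φ p)) := ⟨_, rfl⟩
  have hfS : ∀ φ, f φ = Real.exp (s * Sy y σ φ) := by
    intro φ
    rw [hf]
    simp only [Sy, Finset.mul_sum]
    congr 1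
    exact Finset.sum_congr rfl fun p _ => by ring
  have hcont : Continuous f := by
    rw [hf]
    refine Real.continuous_exp.comp (continuous_finsetSum _ fun p _ => ?_)
    exact continuous_const.mul (Real.continuous_cos.comp (continuous_apply p))
  have hint : Integrable f (tor y) := by
    refine Integrable.of_bound hcont.aestronglyMeasurable
      (Real.exp (∑ p : Pr y, |s * aa σ p|)) (Eventually.of_forall fun φ => ?_)
    rw [hf]
    simp only [Real.norm_eq_abs, Real.abs_exp]
    refine Real.exp_le_exp.2 (Finset.sum_le_sum fun p _ => ?_)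
    refine (le_abs_self _).trans ?_
    rw [abs_mul]
    exact mul_le_of_le_one_right (abs_nonneg _) (Real.abs_cos_le_one _)
  have hnn : 0 ≤ᵐ[tor y] f := Eventually.of_forall fun φ => by
    rw [hfS]
    exact (Real.exp_pos _).le
  have h1 := mul_meas_ge_le_integral_of_nonneg hnn hint (Real.exp (s * (muy y σ s + h)))
  have h2 : ∫ φ, f φ ∂tor y = Real.exp (∑ p : Pr y, ell (s * aa σ p)) := by
    rw [hf]
    exact h0 y fun p => s * aa σ p
  have h3 : (tor y).real {φ | muy y σ s + h ≤ Sy y σ φ} ≤
      (tor y).real {φ | Real.exp (s * (muy y σ s + h)) ≤ f φ} := by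
    refine measureReal_mono ?_
    intro φ hφ
    simp only [mem_ofPred_eq] at hφ ⊢
    rw [hfS]
    exact Real.exp_le_exp.2 (mul_le_mul_of_nonneg_left hφ hs)
  have h4 : -(Ly y σ s) - s * h = ∑ p : Pr y, ell (s * aa σ p) - s * (muy y σ s + h) := by
    unfold Ly muy
    rw [Finset.sum_sub_distrib, mul_add, Finset.mul_sum]
    have : ∑ p : Pr y, s * aa σ p * rr (s * aa σ p) =
        ∑ p : Pr y, s * (aa σ p * rr (s * aa σ p)) :=
      Finset.sum_congr rfl fun p _ => by ring
    rw [this]
    ring
  rw [h4, Real.exp_sub, le_div_iff₀ (Real.exp_pos _), mul_comm]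
  exact (mul_le_mul_of_nonneg_left h3 (Real.exp_pos _).le).trans (h1.trans h2.le)

end Pool.Agent.Helper57.QZ
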